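import Mathlib
import Pool.Agent.W2helper54.K13
import Pool.Agent.W2helper54.K13Planar
import Pool.Agent.W2helper54.K13B.Poly

set_option autoImplicit false

namespace Pool.Agent.W2helper54.K13B

open Finset
open Pool.Agent.Helper843
open Pool.Agent.W2helper54.K13 (key planar)

abbrev E := EuclideanSpace ℝ (Fin 3)

lemma sqrt_prod {s t c κ : ℝ} (hs : s ^ 2 ≤ 1) (ht : t ^ 2 ≤ 1) (hκ : 0 ≤ κ)
    (h : c ≤ 0 ∨ c ^ 2 ≤ κ ^ 2 * ((1 - s ^ 2) * (1 - t ^ 2))) :
    c ≤ κ * (Real.sqrt (1 - s ^ 2) * Real.sqrt (1 - t ^ 2)) := by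
  rcases h with h | h
  · exact h.trans (by positivity)
  · apply le_of_sq_le_sq _ (by positivity)
    rw [mul_pow, mul_pow, Real.sq_sqrt (by linarith), Real.sq_sqrt (by linarith)]
    exact h

/-- at most five vectors near the boundary of the cap of angular radius `60` degrees -/
lemma degree_le {ι : Type*} (S : Finset ι) (y : ι → E) (e : E) (he : ‖e‖ = 1)
    (hy : ∀ i ∈ S, ‖y i‖ = 1)
    (hij : ∀ i ∈ S, ∀ j ∈ S, i ≠ j → inner ℝ (y i) (y j) ≤ (413 / 800))
    (hs : ∀ i ∈ S, 1 / 2 ≤ inner ℝ e (y i)) (hs2 : ∀ i ∈ S, inner ℝ e (y i) ≤ (413 / 800)) :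
    #S ≤ 5 := by
  have hsq : ∀ i ∈ S, inner ℝ e (y i) ^ 2 ≤ 2666 / 10000 := fun i hi =>
    (pow_le_pow_left₀ (by linarith [hs i hi]) (hs2 i hi) 2).trans (by norm_num)
  have h := planar S y e he (91 / 250) (17 / 20) (by norm_num) (by norm_num) (by norm_num) hy
    (fun i hi => by linarith [hsq i hi]) (by
      intro i hi j hj hne
      have hi' := hsq i hi
      have hj' := hsq j hj
      refine sqrt_prod (by linarith) (by linarith) (by norm_num) ?_
      have h1 := hij i hi j hj hne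
      have h2 : (1 / 2 : ℝ) * (1 / 2) ≤ inner ℝ e (y i) * inner ℝ e (y j) :=
        mul_le_mul (hs i hi) (hs j hj) (by norm_num) (by linarith [hs i hi])
      rcases le_or_gt (inner ℝ (y i) (y j) - inner ℝ e (y i) * inner ℝ e (y j)) 0 with h3 | h3
      · exact Or.inl h3
      · right
        have h4 : (inner ℝ (y i) (y j) - inner ℝ e (y i) * inner ℝ e (y j)) ^ 2 ≤
            ((413 / 800) - 1 / 4) ^ 2 := pow_le_pow_left₀ h3.le (by linarith) 2
        have h5 : (1 - 2666 / 10000 : ℝ) * (1 - 2666 / 10000) ≤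
            (1 - inner ℝ e (y i) ^ 2) * (1 - inner ℝ e (y j) ^ 2) :=
          mul_le_mul (by linarith) (by linarith) (by norm_num) (by linarith)
        have h6 : ((413 / 800) - 1 / 4 : ℝ) ^ 2 ≤ (91 / 250) ^ 2 * ((1 - 2666 / 10000 : ℝ) * (1 - 2666 / 10000)) := by
          norm_num
        exact (h4.trans h6).trans (mul_le_mul_of_nonneg_left h5 (by norm_num)))
  by_contra hc
  push Not at hc
  have h6 : (6 : ℝ) ≤ #S := by exact_mod_cast hc
  norm_num at h
  linarith

/-- at most four vectors in the small cap -/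
lemma cap_le {ι : Type*} (S : Finset ι) (y : ι → E) (e : E) (he : ‖e‖ = 1)
    (hy : ∀ i ∈ S, ‖y i‖ = 1)
    (hij : ∀ i ∈ S, ∀ j ∈ S, i ≠ j → inner ℝ (y i) (y j) ≤ (413 / 800))
    (hs : ∀ i ∈ S, (33 / 50) ≤ inner ℝ e (y i)) :
    #S ≤ 4 := by
  classical
  rcases Nat.lt_or_ge #S 2 with hS | hS
  · omega
  have hle : ∀ i ∈ S, inner ℝ e (y i) ≤ 1 := by
    intro i hi
    have := real_inner_le_norm e (y i)
    rw [he, hy i hi] at this
    linarith
  have hlt : ∀ i ∈ S, inner ℝ e (y i) < 1 := by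
    intro i hi
    refine lt_of_le_of_ne (hle i hi) fun h1 => ?_
    have hei : e = y i := (inner_eq_one_iff_of_norm_eq_one (𝕜 := ℝ) he (hy i hi)).1 h1
    obtain ⟨j, hj, hne⟩ : ∃ j ∈ S, j ≠ i := by
      by_contra hcon
      push Not at hcon
      have : S ⊆ {i} := fun j hj => mem_singleton.2 (hcon j hj)
      have := card_le_card this
      rw [card_singleton] at this
      omega
    have h2 := hs j hj
    have h3 := hij i hi j hj (Ne.symm hne)
    rw [← hei] at h3
    norm_num at h2 h3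
    linarith
  have h := planar S y e he (1613 / 11288) (7 / 10) (by norm_num) (by norm_num) (by norm_num) hy
    (fun i hi => by nlinarith [hs i hi, hlt i hi]) (by
      intro i hi j hj hne
      obtain ⟨s, hs'⟩ : ∃ s, s = inner ℝ e (y i) := ⟨_, rfl⟩
      obtain ⟨t, ht'⟩ : ∃ t, t = inner ℝ e (y j) := ⟨_, rfl⟩
      obtain ⟨w, hw'⟩ : ∃ w, w = inner ℝ (y i) (y j) := ⟨_, rfl⟩
      have s0 := hs i hi
      have s1 := hlt i hi
      have t0 := hs j hj
      have t1 := hlt j hj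
      have w0 := hij i hi j hj hne
      rw [← hs'] at s0 s1 ⊢
      rw [← ht'] at t0 t1 ⊢
      rw [← hw'] at w0 ⊢
      have hs2 : s ^ 2 ≤ 1 := by nlinarith
      have ht2 : t ^ 2 ≤ 1 := by nlinarith
      refine sqrt_prod hs2 ht2 (by norm_num) ?_
      rcases le_or_gt (w - s * t) 0 with h3 | h3
      · exact Or.inl h3
      · right
        obtain ⟨r, hr⟩ : ∃ r, r = s * t := ⟨_, rfl⟩
        have r0 : (33 / 50) * (33 / 50) ≤ r := by
          rw [hr]; exact mul_le_mul s0 t0 (by norm_num) (by linarith)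
        have r1 : r ≤ (413 / 800) := by rw [hr]; linarith
        have h4 : (w - s * t) ^ 2 ≤ ((413 / 800) - r) ^ 2 :=
          pow_le_pow_left₀ h3.le (by rw [hr]; linarith) 2
        have h5 : 0 ≤ (s ^ 2 - (33 / 50) ^ 2) * (t ^ 2 - (33 / 50) ^ 2) :=
          mul_nonneg (by nlinarith) (by nlinarith)
        have h6 : (33 / 50) ^ 2 * ((1 - s ^ 2) * (1 - t ^ 2)) =
            (1 - (33 / 50) ^ 2) * ((33 / 50) ^ 2 - r ^ 2) + (s ^ 2 - (33 / 50) ^ 2) * (t ^ 2 - (33 / 50) ^ 2) := by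
          rw [hr]; ring
        have h7 : 0 ≤ (r - (33 / 50) * (33 / 50)) * ((413 / 800) - r) := mul_nonneg (by linarith) (by linarith)
        have h8 : (33 / 50) ^ 2 * ((413 / 800) - r) ^ 2 ≤
            (1613 / 11288) ^ 2 * ((1 - (33 / 50) ^ 2) * ((33 / 50) ^ 2 - r ^ 2)) := by
          norm_num at h7 r0 r1 ⊢
          nlinarith
        have h9 : ((413 / 800) - r) ^ 2 ≤ (1613 / 11288) ^ 2 * ((1 - s ^ 2) * (1 - t ^ 2)) := by
          have h10 : (33 / 50) ^ 2 * ((413 / 800) - r) ^ 2 ≤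
              (33 / 50) ^ 2 * ((1613 / 11288) ^ 2 * ((1 - s ^ 2) * (1 - t ^ 2))) := by
            have e : (33 / 50) ^ 2 * ((1613 / 11288) ^ 2 * ((1 - s ^ 2) * (1 - t ^ 2)))
                = (1613 / 11288) ^ 2 * ((33 / 50) ^ 2 * ((1 - s ^ 2) * (1 - t ^ 2))) := by ring
            rw [e, h6, mul_add]
            have := mul_nonneg (by norm_num : (0 : ℝ) ≤ (1613 / 11288) ^ 2) h5
            linarith
          exact le_of_mul_le_mul_left h10 (by norm_num)
        exact h4.trans h9)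
  by_contra hc
  push Not at hc
  have h6 : (5 : ℝ) ≤ #S := by exact_mod_cast hc
  norm_num at h
  linarith

/-- the local bound -/
lemma local_bound {ι : Type*} (S : Finset ι) (y : ι → E) (e : E) (he : ‖e‖ = 1)
    (hy : ∀ i ∈ S, ‖y i‖ = 1)
    (hij : ∀ i ∈ S, ∀ j ∈ S, i ≠ j → inner ℝ (y i) (y j) ≤ (413 / 800))
    (hs : ∀ i ∈ S, (33 / 50) ≤ inner ℝ e (y i)) :
    ∑ i ∈ S, F (inner ℝ e (y i)) < BB := by
  classical
  have hS4 : #S ≤ 4 := cap_le S y e he hy hij hs
  have hs1 : ∀ i ∈ S, inner ℝ e (y i) ≤ 1 := by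
    intro i hi
    have := real_inner_le_norm e (y i)
    rw [he, hy i hi] at this
    linarith
  set x : ι → ℝ := fun i => inner ℝ e (y i) - (33 / 50) with hx
  have hx0 : ∀ i ∈ S, 0 ≤ x i := fun i hi => sub_nonneg.2 (hs i hi)
  set X : ℝ := ∑ i ∈ S, x i with hX
  set Y : ℝ := ∑ i ∈ S, x i ^ 2 with hY
  set n : ℕ := #S with hn
  have hX0 : 0 ≤ X := sum_nonneg hx0
  have e1 : ∑ i ∈ S, inner ℝ e (y i) = X + n * (33 / 50) := by
    rw [hX, hx]
    simp only [sum_sub_distrib, sum_const, nsmul_eq_mul]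
    ring
  have e2 : ∑ i ∈ S, (inner ℝ e (y i)) ^ 2 = Y + 2 * (33 / 50) * X + n * (33 / 50) ^ 2 := by
    have : ∀ i ∈ S, (inner ℝ e (y i)) ^ 2 = x i ^ 2 + 2 * (33 / 50) * x i + (33 / 50) ^ 2 := fun i _ => by
      simp only [hx]; ring
    rw [sum_congr rfl this, sum_add_distrib, sum_add_distrib, ← mul_sum, sum_const, nsmul_eq_mul]
  have hK1 : (n * (33 / 50) + X) ^ 2 ≤ n * ((387 / 800) + n * (413 / 800)) := by
    have h := key S y e (413 / 800) he hy hij (fun _ => 1) (fun _ _ => zero_le_one)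
    simp only [one_mul, one_pow, sum_const, nsmul_eq_mul, mul_one] at h
    rw [e1] at h
    linarith
  have hK3 : (413 / 800) * X ≤ (387 / 800) * (33 / 50) →
      ((387 / 800) + n * (413 / 800)) * Y ≤ (413 / 800) * X ^ 2 - (12771 / 20000) * X
        + (387 / 800) * ((387 / 800) + n * ((413 / 800) - (33 / 50) ^ 2)) := by
    intro hc
    set D : ℝ := (387 / 800) + n * (413 / 800) with hD
    have hD0 : 0 < D := by rw [hD]; positivity
    set σ : ℝ := ∑ i ∈ S, inner ℝ e (y i) with hσ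
    set Q : ℝ := ∑ i ∈ S, (inner ℝ e (y i)) ^ 2 with hQ
    have h := key S y e (413 / 800) he hy hij (fun i => D * inner ℝ e (y i) - (413 / 800) * σ) (fun i hi => by
      have h1 := mul_le_mul_of_nonneg_left (hs i hi) hD0.le
      show 0 ≤ D * inner ℝ e (y i) - (413 / 800) * σ
      rw [e1]
      rw [hD] at h1 ⊢
      linarith)
    have e3 : ∑ i ∈ S, (D * inner ℝ e (y i) - (413 / 800) * σ) = D * σ - n * ((413 / 800) * σ) := by
      rw [sum_sub_distrib, ← mul_sum, sum_const, nsmul_eq_mul]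
    have e4 : ∑ i ∈ S, (D * inner ℝ e (y i) - (413 / 800) * σ) * inner ℝ e (y i)
        = D * Q - (413 / 800) * σ ^ 2 := by
      have : ∀ i ∈ S, (D * inner ℝ e (y i) - (413 / 800) * σ) * inner ℝ e (y i)
          = D * (inner ℝ e (y i)) ^ 2 - (413 / 800) * σ * inner ℝ e (y i) := fun i _ => by ring
      rw [sum_congr rfl this, sum_sub_distrib, ← mul_sum, ← mul_sum]
      ring
    have e5 : ∑ i ∈ S, (D * inner ℝ e (y i) - (413 / 800) * σ) ^ 2
        = D ^ 2 * Q - 2 * D * (413 / 800) * σ ^ 2 + n * (413 / 800) ^ 2 * σ ^ 2 := by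
      have : ∀ i ∈ S, (D * inner ℝ e (y i) - (413 / 800) * σ) ^ 2
          = D ^ 2 * (inner ℝ e (y i)) ^ 2 - 2 * D * (413 / 800) * σ * inner ℝ e (y i)
            + (413 / 800) ^ 2 * σ ^ 2 := fun i _ => by ring
      rw [sum_congr rfl this, sum_add_distrib, sum_sub_distrib, ← mul_sum, ← mul_sum, sum_const,
        nsmul_eq_mul]
      ring
    rw [e3, e4, e5] at h
    set q : ℝ := D * Q - (413 / 800) * σ ^ 2 with hq
    have h3 : q ^ 2 ≤ (387 / 800) * D * q := by
      have : (1 - (413 / 800)) * (D ^ 2 * Q - 2 * D * (413 / 800) * σ ^ 2 + n * (413 / 800) ^ 2 * σ ^ 2)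
          + (413 / 800) * (D * σ - n * ((413 / 800) * σ)) ^ 2 = (387 / 800) * D * q := by
        rw [hq, hD]; ring
      linarith
    have h4 : q ≤ (387 / 800) * D := by
      by_contra hcon
      push Not at hcon
      have hq0 : 0 < q := lt_of_le_of_lt (by positivity) hcon
      nlinarith
    have h5 : q = D * Y - (413 / 800) * X ^ 2 + (12771 / 20000) * X + (387 / 800) * n * (33 / 50) ^ 2 := by
      rw [hq, e1, e2, hD]; ring
    rw [h5] at h4
    have h6 : (387 / 800) * D = (387 / 800) * ((387 / 800) + n * (413 / 800)) := by rw [hD]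
    linarith
  rcases Nat.lt_or_ge n 3 with h3 | h3
  · interval_cases hc : n
    · have hn0 := hn.symm
      rw [card_eq_zero] at hn0
      subst hn0
      simp [BB]
    · obtain ⟨i, hi⟩ := card_eq_one.1 hn.symm
      subst hi
      have := I2 (inner ℝ e (y i)) (hs i (by simp)) (hs1 i (by simp))
      simp only [sum_singleton]
      linarith
    · obtain ⟨i, j, hne, hi⟩ := card_eq_two.1 hn.symm
      have hXlt : (413 / 800) * X ≤ (387 / 800) * (33 / 50) := by
        push_cast at hK1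
        nlinarith
      have hg := hK3 hXlt
      have hXe : X = inner ℝ e (y i) - (33 / 50) + (inner ℝ e (y j) - (33 / 50)) := by
        rw [hX, hi, sum_pair hne]
      have hYe : Y = (inner ℝ e (y i) - (33 / 50)) ^ 2 + (inner ℝ e (y j) - (33 / 50)) ^ 2 := by
        rw [hY, hi, sum_pair hne]
      rw [hXe, hYe] at hg
      push_cast at hg
      rw [hi, sum_pair hne]
      refine pair _ _ (hs i (by simp [hi])) (hs j (by simp [hi])) ?_
      nlinarith
  · have hYX : Y ≤ X ^ 2 := by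
      rw [hY, sq X, hX, sum_mul]
      refine sum_le_sum fun i hi => ?_
      rw [sq]
      exact mul_le_mul_of_nonneg_left (single_le_sum hx0 hi) (hx0 i hi)
    refine many n X Y _ h3 hS4 hX0 hYX hK1 hK3 ?_ ?_
    · rw [hX, hY, mul_sum, mul_sum, ← sum_add_distrib]
      exact sum_le_sum fun i hi => maj1 _ (hs i hi) (hs1 i hi)
    · rw [hX, hY, mul_sum, mul_sum, ← sum_add_distrib]
      exact sum_le_sum fun i hi => maj2 _ (hs i hi) (hs1 i hi)

lemma f_expand (t : ℝ) : f t = (1935393376347718 / 3) + (80670665915400101 / 77) * Leg.P1 t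
    + (47228688943910000 / 21) * Leg.P2 t + (122672798013221000 / 117) * Leg.P3 t + (8945231600000000 / 7) * Leg.P4 t
    + (146125300000000 / 63) * Leg.P5 t + (32000000000000000 / 143) * Leg.P9 t := by
  unfold f Leg.P1 Leg.P2 Leg.P3 Leg.P4 Leg.P5 Leg.P9
  ring

lemma sum_f {ι : Type*} [Fintype ι] (x : ι → E) (hx : ∀ i, ‖x i‖ = 1) :
    (1935393376347718 / 3) * (Fintype.card ι : ℝ) ^ 2 ≤ ∑ i, ∑ j, f (inner ℝ (x i) (x j)) := by
  set z : ι → ℝ := fun i => x i 2 with hz
  set ξ : ι → ℂ := fun i => ⟨x i 0, x i 1⟩ with hξ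
  have hn : ∀ i, Complex.normSq (ξ i) = 1 - z i ^ 2 := by
    intro i
    have h1 : ‖x i‖ ^ 2 = 1 := by rw [hx i]; norm_num
    rw [EuclideanSpace.norm_sq_eq, Fin.sum_univ_three] at h1
    simp only [Real.norm_eq_abs, sq_abs] at h1
    simp only [hξ, hz, Complex.normSq_mk]
    linarith
  have hin : ∀ i j, inner ℝ (x i) (x j) = z i * z j + (ξ i * (starRingEnd ℂ) (ξ j)).re := by
    intro i j
    simp only [PiLp.inner_apply, Fin.sum_univ_three, hz, hξ, Complex.mul_re, Complex.conj_re,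
      Complex.conj_im]
    simp
    ring
  have p1 := Leg.psdP 2 Leg.P1 Leg.a1 Leg.q1 Leg.a1_nonneg Leg.add1 z ξ hn
  have p2 := Leg.psdP 3 Leg.P2 Leg.a2 Leg.q2 Leg.a2_nonneg Leg.add2 z ξ hn
  have p3 := Leg.psdP 4 Leg.P3 Leg.a3 Leg.q3 Leg.a3_nonneg Leg.add3 z ξ hn
  have p4 := Leg.psdP 5 Leg.P4 Leg.a4 Leg.q4 Leg.a4_nonneg Leg.add4 z ξ hn
  have p5 := Leg.psdP 6 Leg.P5 Leg.a5 Leg.q5 Leg.a5_nonneg Leg.add5 z ξ hn
  have p9 := Leg.psdP 10 Leg.P9 Leg.a9 Leg.q9 Leg.a9_nonneg Leg.add9 z ξ hn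
  simp_rw [← hin] at p1 p2 p3 p4 p5 p9
  simp_rw [f_expand, sum_add_distrib, ← mul_sum]
  have : ∑ i : ι, ∑ j : ι, ((1935393376347718 / 3) : ℝ) = (1935393376347718 / 3) * (Fintype.card ι : ℝ) ^ 2 := by
    simp only [sum_const, card_univ, nsmul_eq_mul]
    ring
  rw [this]
  nlinarith

/-- the inner product of two unit directions is at most `1/2 + (a + b) / 2` -/
lemma dir_inner (x y : E) (a b : ℝ) (ha : 0 ≤ a) (hb : 0 ≤ b) (hx : ‖x‖ = 2 * (1 + a))
    (hy : ‖y‖ = 2 * (1 + b)) (hxy : 2 ≤ ‖x - y‖) :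
    inner ℝ (‖x‖⁻¹ • x) (‖y‖⁻¹ • y) ≤ 1 / 2 + (a + b) / 2 := by
  have hx0 : 0 < ‖x‖ := by rw [hx]; linarith
  have hy0 : 0 < ‖y‖ := by rw [hy]; linarith
  have h1 : ‖x - y‖ ^ 2 = ‖x‖ ^ 2 - 2 * inner ℝ x y + ‖y‖ ^ 2 := norm_sub_sq_real x y
  have h2 : (2 : ℝ) ^ 2 ≤ ‖x - y‖ ^ 2 := pow_le_pow_left₀ (by norm_num) hxy 2
  have h3 : inner ℝ x y ≤ (‖x‖ ^ 2 + ‖y‖ ^ 2 - 4) / 2 := by linarith
  rw [real_inner_smul_left, real_inner_smul_right, ← mul_assoc, ← mul_inv]
  rw [inv_mul_le_iff₀ (by positivity)]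
  refine h3.trans ?_
  rw [hx, hy]
  nlinarith [mul_nonneg ha hb, mul_nonneg (mul_nonneg ha hb) ha, mul_nonneg (mul_nonneg ha hb) hb]

/-- thirteen unit vectors whose pairwise inner products exceed `1/2` only slightly -/
lemma no_thirteen (y : Fin 13 → E) (a : Fin 13 → ℝ) (ha : ∀ i, 0 ≤ a i) (hy : ∀ i, ‖y i‖ = 1)
    (hij : ∀ i j, i ≠ j → inner ℝ (y i) (y j) ≤ 1 / 2 + (a i + a j) / 2) :
    (13 / 400) ≤ ∑ i, a i := by
  classical
  by_contra hc
  push Not at hc
  have hpair : ∀ i j, i ≠ j → a i + a j ≤ (13 / 400) := by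
    intro i j hne
    have h1 : ∑ k ∈ ({i, j} : Finset (Fin 13)), a k ≤ ∑ k, a k :=
      sum_le_sum_of_subset_of_nonneg (subset_univ _) fun k _ _ => ha k
    rw [sum_pair hne] at h1
    linarith
  have hz : ∀ i j, i ≠ j → inner ℝ (y i) (y j) ≤ (413 / 800) := by
    intro i j hne
    have h1 := hij i j hne
    have h2 := hpair i j hne
    linarith
  have h1 := sum_f y hy
  set W : Fin 13 → Fin 13 → ℝ := fun i j =>
    if i ≠ j ∧ 1 / 2 < inner ℝ (y i) (y j) then 1 else 0 with hW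
  have hWsymm : ∀ i j, W i j = W j i := by
    intro i j
    simp only [hW, real_inner_comm (y i) (y j), ne_comm (a := i)]
  have hWdeg : ∀ i, ∑ j, W i j ≤ 5 := by
    intro i
    have h5 := degree_le (univ.filter fun j => i ≠ j ∧ 1 / 2 < inner ℝ (y i) (y j)) y (y i) (hy i)
      (fun j _ => hy j) (fun j _ k _ hjk => hz j k hjk)
      (fun j hj => (mem_filter.1 hj).2.2.le) (fun j hj => hz i j (mem_filter.1 hj).2.1)
    simp only [hW]
    rw [sum_boole]
    exact_mod_cast h5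
  have h2 : ∀ i, ∑ j, f (inner ℝ (y i) (y j)) < f 1 + BB
      + 3216000000000000 * ∑ j, W i j * ((a i + a j) / 2) := by
    intro i
    set S : Finset (Fin 13) := univ.filter (fun j => (33 / 50) ≤ inner ℝ (-y i) (y j)) with hS
    have hiS : i ∉ S := by
      rw [hS, mem_filter]
      rintro ⟨-, h⟩
      rw [inner_neg_left, real_inner_self_eq_norm_sq, hy i] at h
      norm_num at h
    have hl := local_bound S y (-y i) (by rw [norm_neg, hy]) (fun j _ => hy j)
      (fun j _ k _ hjk => hz j k hjk) (fun j hj => (mem_filter.1 hj).2)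
    have e1 : ∀ j, f (inner ℝ (y i) (y j)) ≤
        (if j = i then f 1 else 0) + (if j ∈ S then F (inner ℝ (-y i) (y j)) else 0)
          + 3216000000000000 * (W i j * ((a i + a j) / 2)) := by
      intro j
      by_cases hji : j = i
      · subst hji
        rw [if_pos rfl, if_neg hiS, real_inner_self_eq_norm_sq, hy j]
        simp [hW]
      · rw [if_neg hji]
        have hW0 : 0 ≤ W i j := by simp only [hW]; split_ifs <;> norm_num
        have hnn : 0 ≤ 3216000000000000 * (W i j * ((a i + a j) / 2)) :=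
          mul_nonneg (by norm_num) (mul_nonneg hW0 (by linarith [ha i, ha j]))
        by_cases hjS : j ∈ S
        · rw [if_pos hjS, inner_neg_left]
          unfold F
          rw [neg_neg]
          linarith
        · rw [if_neg hjS]
          have hlow : ¬ ((33 / 50) ≤ inner ℝ (-y i) (y j)) := fun h => hjS (mem_filter.2 ⟨mem_univ _, h⟩)
          rw [inner_neg_left] at hlow
          rcases le_or_gt (inner ℝ (y i) (y j)) (1 / 2) with h5 | h5
          · have h6 := f_nonpos (inner ℝ (y i) (y j)) (by linarith) h5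
            linarith
          · have h6 := f_near (inner ℝ (y i) (y j)) h5.le (hz i j (Ne.symm hji))
            have h7 := hij i j (Ne.symm hji)
            have h8 : W i j = 1 := by simp only [hW]; rw [if_pos ⟨Ne.symm hji, h5⟩]
            rw [h8, one_mul]
            linarith
    have e2 : ∑ j, ((if j = i then f 1 else 0) + (if j ∈ S then F (inner ℝ (-y i) (y j)) else 0)
          + 3216000000000000 * (W i j * ((a i + a j) / 2)))
        = f 1 + ∑ j ∈ S, F (inner ℝ (-y i) (y j)) + 3216000000000000 * ∑ j, W i j * ((a i + a j) / 2) := by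
      rw [sum_add_distrib, sum_add_distrib, ← mul_sum]
      congr 1
      congr 1
      · simp
      · rw [← sum_filter]
        congr 1
        ext j
        simp
    have h3 := sum_le_sum fun j (_ : j ∈ (univ : Finset (Fin 13))) => e1 j
    rw [e2] at h3
    linarith
  have h3 : ∑ i, ∑ j, f (inner ℝ (y i) (y j))
      ≤ ∑ i, (f 1 + BB + 3216000000000000 * ∑ j, W i j * ((a i + a j) / 2)) :=
    sum_le_sum fun i _ => (h2 i).le
  have e3 : ∑ i, (f 1 + BB + 3216000000000000 * ∑ j, W i j * ((a i + a j) / 2))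
      = 13 * (f 1 + BB) + 3216000000000000 * ∑ i, ∑ j, W i j * ((a i + a j) / 2) := by
    rw [sum_add_distrib, sum_const, card_univ, Fintype.card_fin, ← mul_sum]
    simp only [nsmul_eq_mul]
    norm_num
  have e4 : ∑ i, ∑ j, W i j * ((a i + a j) / 2) = ∑ i, a i * ∑ j, W i j := by
    have s1 : ∑ i, ∑ j, W i j * ((a i + a j) / 2)
        = ∑ i, ∑ j, W i j * (a i / 2) + ∑ i, ∑ j, W i j * (a j / 2) := by
      simp_rw [← sum_add_distrib]
      refine sum_congr rfl fun i _ => sum_congr rfl fun j _ => ?_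
      ring
    have s2 : ∑ i, ∑ j, W i j * (a j / 2) = ∑ i, ∑ j, W i j * (a i / 2) := by
      rw [sum_comm]
      refine sum_congr rfl fun i _ => sum_congr rfl fun j _ => ?_
      rw [hWsymm]
    rw [s1, s2, ← sum_add_distrib]
    refine sum_congr rfl fun i _ => ?_
    rw [mul_sum, ← sum_add_distrib]
    refine sum_congr rfl fun j _ => ?_
    ring
  have e5 : ∑ i, a i * ∑ j, W i j ≤ 5 * ∑ i, a i := by
    rw [mul_sum]
    refine sum_le_sum fun i _ => ?_
    rw [mul_comm]
    exact mul_le_mul_of_nonneg_right (hWdeg i) (ha i)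
  rw [e3, e4, f_one] at h3
  rw [Fintype.card_fin] at h1
  unfold BB at h3
  norm_num at h1 h3 hc
  linarith

end Pool.Agent.W2helper54.K13B
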