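import Mathlib

set_option autoImplicit false

namespace Pool.Agent.W2helper54.K13B

open Finset

/-- the coordinates, in units of `10⁻⁵`, of thirteen points: twelve points of norm about `2` and one
point of norm about `2.694` -/
def crd : Fin 13 → Fin 3 → ℤ := ![![53111, 152850, 117551], ![-10729, 187493, -68799],
  ![167593, 102168, -38421], ![178322, -85325, 30378], ![51465, 40258, -189031],
  ![-152242, 117848, 54188], ![-88401, 83205, 240538], ![-140436, 49666, -133465],
  ![-141513, -69645, 122987], ![-129707, -137827, -64667], ![63840, -34643, 186350],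
  ![62194, -147235, -120232], ![10729, -187493, 68799]]

/-- upper bounds for the norms, in units of `10⁻⁵` -/
def ub : Fin 13 → ℤ := ![200006, 200006, 200005, 200005, 200006, 200006, 269438, 200005, 200006,
  200006, 200006, 200005, 200006]

def nsq (v : Fin 3 → ℤ) : ℤ := v 0 * v 0 + v 1 * v 1 + v 2 * v 2

set_option maxRecDepth 100000 in
lemma crd_norm : ∀ i, 40000000000 ≤ nsq (crd i) ∧ nsq (crd i) ≤ ub i * ub i ∧ 0 ≤ ub i := by decide

set_option maxRecDepth 100000 in
lemma crd_dist : ∀ i j, i ≠ j → 40000000000 ≤ nsq (fun k => crd i k - crd j k) := by decide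

/-- the configuration -/
noncomputable def cfg (i : Fin 13) : EuclideanSpace ℝ (Fin 3) :=
  WithLp.toLp 2 fun k => (crd i k : ℝ) / 100000

lemma norm_sq_of (v : Fin 3 → ℤ) :
    ‖(WithLp.toLp 2 fun k => (v k : ℝ) / 100000 : EuclideanSpace ℝ (Fin 3))‖ ^ 2
      = (nsq v : ℝ) / 10000000000 := by
  rw [EuclideanSpace.norm_sq_eq, Fin.sum_univ_three]
  simp only [Real.norm_eq_abs, sq_abs, nsq]
  push_cast
  ring

lemma two_le_of {v : Fin 3 → ℤ} (h : 40000000000 ≤ nsq v) :
    2 ≤ ‖(WithLp.toLp 2 fun k => (v k : ℝ) / 100000 : EuclideanSpace ℝ (Fin 3))‖ := by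
  apply le_of_sq_le_sq _ (norm_nonneg _)
  rw [norm_sq_of]
  have : (40000000000 : ℝ) ≤ nsq v := by exact_mod_cast h
  rw [le_div_iff₀ (by norm_num)]
  linarith

lemma cfg_norm (i : Fin 13) : 2 ≤ ‖cfg i‖ := two_le_of (crd_norm i).1

lemma cfg_dist (i j : Fin 13) (h : i ≠ j) : 2 ≤ ‖cfg i - cfg j‖ := by
  have e : cfg i - cfg j = WithLp.toLp 2 fun k => (((crd i k - crd j k : ℤ)) : ℝ) / 100000 := by
    ext k
    simp only [cfg, PiLp.sub_apply]
    push_cast
    ring
  rw [e]
  exact two_le_of (crd_dist i j h)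

lemma cfg_norm_le (i : Fin 13) : ‖cfg i‖ ≤ (ub i : ℝ) / 100000 := by
  have h := crd_norm i
  have h0 : (0 : ℝ) ≤ ub i := by exact_mod_cast h.2.2
  apply le_of_sq_le_sq _ (by positivity)
  rw [cfg, norm_sq_of]
  have : (nsq (crd i) : ℝ) ≤ ub i * ub i := by exact_mod_cast h.2.1
  rw [div_pow, div_le_div_iff₀ (by norm_num) (by norm_num)]
  nlinarith

lemma sum_ub : ∑ i, ub i = 2669506 := by decide

lemma cfg_sum : (∑ i, ‖cfg i‖) / 13 ≤ 4107 / 2000 := by
  have h1 : ∑ i, ‖cfg i‖ ≤ ∑ i, (ub i : ℝ) / 100000 := sum_le_sum fun i _ => cfg_norm_le i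
  have h2 : ∑ i, (ub i : ℝ) / 100000 = 2669506 / 100000 := by
    rw [← sum_div]
    congr 1
    exact_mod_cast sum_ub
  rw [h2] at h1
  linarith

end Pool.Agent.W2helper54.K13B
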